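import Pool.Agent.Helper33.EX.E5U
import Pool.Agent.Helper8.XU.CoreU
import Pool.Agent.Helper2.XU.L2
import Pool.Agent.Helper84.EXO.Defs

/-!
# EXO, O3: the share of `vv u` among the ordinary tuples
-/

set_option autoImplicit false

open Polynomial

namespace Pool.Agent.Helper86.EXO3

open Pool.Agent.Helper84.AA
open Pool.Agent.Helper84.EXO (vv)
open Pool.Agent.Helper86.XU

/-- At least a third of `traceSet q g` is ordinary at `p`, `g ≥ G`, `G` independent of `q`, `p`. -/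
theorem ord_third : ∃ G : ℕ, ∀ q : ℕ, 16 ≤ q → ∀ p : ℕ, p.Prime → ∀ g ≥ G,
    ((traceSet q g).ncard : ℝ) ≤
      3 * (({h ∈ traceSet q g | ¬ (p : ℤ) ∣ h.coeff 0}.ncard : ℕ) : ℝ) := by
  obtain ⟨G1, hG1⟩ := ratio1U
  obtain ⟨G2, hG2⟩ := ratio2U
  obtain ⟨G3, hG3⟩ := ratio3U
  have hlim := tendsto_self_mul_const_pow_of_lt_one (show (0 : ℝ) ≤ 98 / 100 by norm_num)
    (show (98 / 100 : ℝ) < 1 by norm_num)
  obtain ⟨G5, hG5⟩ := Filter.eventually_atTop.1 (hlim.eventually (gt_mem_nhds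
    (show (0 : ℝ) < 1 by norm_num)))
  refine ⟨max (max G1 G2) (max G3 (max G5 16)), fun q hq p hp g hg => ?_⟩
  have g1 : G1 ≤ g := le_trans (by simp) hg
  have g2 : G2 ≤ g := le_trans (by simp) hg
  have g3 : G3 ≤ g := le_trans (by simp) hg
  have g5 : G5 ≤ g := le_trans (by simp) hg
  have hg3 : 16 ≤ g := le_trans (by simp) hg
  have hgR : (16 : ℝ) ≤ g := by exact_mod_cast hg3
  have hrr1 : 1 ≤ rr q := one_le_rr hq
  have hrr0 : 0 < rr q := by linarith
  have hrrg : 1 ≤ rr q ^ g := one_le_pow₀ hrr1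
  have h98 : (98 / 100 : ℝ) ^ g ≤ 1 / 12 := by
    have h := hG5 g g5
    have h' : (0 : ℝ) < (98 / 100 : ℝ) ^ g := by positivity
    nlinarith
  have hθ2 : (98 / 100 / rr q) ^ g ≤ 1 / 12 := by
    refine le_trans ?_ h98
    rw [div_pow (98 / 100 : ℝ)]
    exact div_le_self (by positivity) hrrg
  have hb : 1 ≤ (101 / 100 * rr q) ^ g := one_le_pow₀ (by nlinarith)
  exact (almost_coreU hq hp (by omega) (fun _ => True) (η := 0) le_rfl hb (by positivity)
    (hG1 q hq g g1) (hG2 q hq g g2) (hG3 q hq g g3)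
    (fun u _ _ _ => by simp) hθ2).2

/-- O3. -/
theorem share_ord_of (hvv : ∀ q : ℕ, 16 ≤ q → IsTrace q 4 (vv q)) :
    ∃ G : ℕ, ∀ q : ℕ, 16 ≤ q → ∀ p : ℕ, p.Prime → p ∣ q →
    ∀ (k : ℕ) (g : Fin k → ℕ) (i : Fin k), G ≤ g i →
      (({h : Fin k → ℤ[X] | ∀ j, h j ∈ traceSet q (g j) ∧
        ¬ (p : ℤ) ∣ (h j).coeff 0}.ncard : ℕ) : ℝ) ≤ (q : ℝ) ^ (8 * g i) *
      (({h : Fin k → ℤ[X] | (∀ j, h j ∈ traceSet q (g j) ∧ ¬ (p : ℤ) ∣ (h j).coeff 0) ∧
        ∃ u, IsTrace q (g i - 4) u ∧ h i = vv q * u}.ncard : ℕ) : ℝ) := by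
  classical
  obtain ⟨G1, hG4, hG1⟩ := Pool.Agent.Helper19.EX.trace_ratio4U lowerU
  obtain ⟨G2, hG2⟩ := ord_third
  refine ⟨max G1 (G2 + 4), fun q hq p hp hpq k g i hi => ?_⟩
  have hi1 : G1 ≤ g i := le_trans (le_max_left _ _) hi
  have hi2 : G2 + 4 ≤ g i := le_trans (le_max_right _ _) hi
  have h4 : 4 ≤ g i := by omega
  have hq16 : (16 : ℝ) ≤ q := by exact_mod_cast hq
  -- the ordinary polynomials
  set O : ℕ → Set ℤ[X] := fun n => {h ∈ traceSet q n | ¬ (p : ℤ) ∣ h.coeff 0} with hO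
  have hfin : ∀ n, (O n).Finite := fun n => (traceSet_finite q n).subset fun h hh => hh.1
  have hA : ((O (g i)).ncard : ℝ) ≤ (q : ℝ) ^ (8 * g i) * ((O (g i - 4)).ncard : ℝ) := by
    have a1 : ((O (g i)).ncard : ℝ) ≤ ((traceSet q (g i)).ncard : ℝ) := by
      exact_mod_cast Set.ncard_le_ncard (s := O (g i)) (fun h hh => hh.1)
        (traceSet_finite q (g i))
    have a2 := hG1 q hq (g i) hi1
    have a3 := hG2 q hq p hp (g i - 4) (by omega)
    have a4 : (3 : ℝ) ≤ (q : ℝ) ^ g i := by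
      calc (3 : ℝ) ≤ q := by linarith
        _ = (q : ℝ) ^ 1 := (pow_one _).symm
        _ ≤ (q : ℝ) ^ g i := pow_le_pow_right₀ (by linarith) (by omega)
    calc ((O (g i)).ncard : ℝ) ≤ ((traceSet q (g i)).ncard : ℝ) := a1
      _ ≤ (q : ℝ) ^ (7 * g i) * ((traceSet q (g i - 4)).ncard : ℝ) := a2
      _ ≤ (q : ℝ) ^ (7 * g i) * (3 * ((O (g i - 4)).ncard : ℝ)) :=
          mul_le_mul_of_nonneg_left a3 (by positivity)
      _ ≤ (q : ℝ) ^ (7 * g i) * ((q : ℝ) ^ g i * ((O (g i - 4)).ncard : ℝ)) := by gcongr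
      _ = (q : ℝ) ^ (8 * g i) * ((O (g i - 4)).ncard : ℝ) := by
          rw [← mul_assoc, ← pow_add]
          congr 2
          ring
  have hvv' := hvv q hq
  -- `vv u` is ordinary when `u` is
  have hcoef : ∀ u : ℤ[X], ¬ (p : ℤ) ∣ u.coeff 0 → ¬ (p : ℤ) ∣ (vv q * u).coeff 0 := by
    intro u hu hd
    have hv0 : (vv q).coeff 0 = 5 * (q : ℤ) + 1 := by
      rw [vv, mul_coeff_zero]
      simp
    rw [mul_coeff_zero, hv0] at hd
    have hpp : Prime (p : ℤ) := Nat.prime_iff_prime_int.1 hp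
    rcases hpp.dvd_or_dvd hd with h | h
    · have hpq' : (p : ℤ) ∣ 5 * (q : ℤ) := Dvd.dvd.mul_left (by exact_mod_cast hpq) 5
      have h1 : (p : ℤ) ∣ 1 := (dvd_add_right hpq').1 h
      exact hpp.not_dvd_one h1
    · exact hu h
  set T : Fin k → Finset ℤ[X] := fun j => (hfin (g j)).toFinset with hT
  set U : Finset ℤ[X] := ((hfin (g i - 4)).toFinset).image (fun h => vv q * h) with hU
  have hinj : Function.Injective fun h : ℤ[X] => vv q * h := fun a b hab =>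
    mul_left_cancel₀ hvv'.1.ne_zero hab
  have hUc : (U.card : ℝ) = ((O (g i - 4)).ncard : ℝ) := by
    rw [hU, Finset.card_image_of_injective _ hinj, ← Set.ncard_eq_toFinset_card _ (hfin _)]
  have hTc : ∀ j, ((T j).card : ℝ) = ((O (g j)).ncard : ℝ) := fun j => by
    rw [hT, ← Set.ncard_eq_toFinset_card _ (hfin _)]
  have h1 : {h : Fin k → ℤ[X] | ∀ j, h j ∈ traceSet q (g j) ∧ ¬ (p : ℤ) ∣ (h j).coeff 0} =
      ↑(Fintype.piFinset T) := by
    ext h
    rw [Finset.mem_coe, Fintype.mem_piFinset]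
    exact forall_congr' fun j => (Set.Finite.mem_toFinset (hfin _)).symm
  have hall : (({h : Fin k → ℤ[X] | ∀ j, h j ∈ traceSet q (g j) ∧
      ¬ (p : ℤ) ∣ (h j).coeff 0}.ncard : ℕ) : ℝ) = ∏ j, ((T j).card : ℝ) := by
    rw [h1, Set.ncard_coe_finset, Fintype.card_piFinset]
    push_cast
    rfl
  have hsub : ((Fintype.piFinset (Function.update T i U) : Finset (Fin k → ℤ[X])) :
      Set (Fin k → ℤ[X])) ⊆ {h : Fin k → ℤ[X] | (∀ j, h j ∈ traceSet q (g j) ∧
        ¬ (p : ℤ) ∣ (h j).coeff 0) ∧ ∃ u, IsTrace q (g i - 4) u ∧ h i = vv q * u} := by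
    intro h hh
    rw [Finset.mem_coe, Fintype.mem_piFinset] at hh
    have hi' := hh i
    rw [Function.update_self, hU, Finset.mem_image] at hi'
    obtain ⟨u, hu, hui⟩ := hi'
    rw [Set.Finite.mem_toFinset] at hu
    have hu' : IsTrace q (g i - 4) u := hu.1
    refine ⟨fun j => ?_, u, hu', hui.symm⟩
    by_cases hj : j = i
    · subst hj
      rw [← hui]
      have := Pool.Agent.Helper19.EX.isTrace_mul hvv' hu'
      rw [show 4 + (g j - 4) = g j by omega] at this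
      exact ⟨this, hcoef u hu.2⟩
    · have := hh j
      rw [Function.update_of_ne hj, hT] at this
      exact (Set.Finite.mem_toFinset (hfin _)).1 this
  have hbig : (∏ j, ((Function.update T i U j).card : ℝ)) ≤
      (({h : Fin k → ℤ[X] | (∀ j, h j ∈ traceSet q (g j) ∧ ¬ (p : ℤ) ∣ (h j).coeff 0) ∧
        ∃ u, IsTrace q (g i - 4) u ∧ h i = vv q * u}.ncard : ℕ) : ℝ) := by
    have hfinb : {h : Fin k → ℤ[X] | (∀ j, h j ∈ traceSet q (g j) ∧
        ¬ (p : ℤ) ∣ (h j).coeff 0) ∧ ∃ u, IsTrace q (g i - 4) u ∧ h i = vv q * u}.Finite := by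
      refine Set.Finite.subset (s := {h : Fin k → ℤ[X] | ∀ j, h j ∈ traceSet q (g j) ∧
        ¬ (p : ℤ) ∣ (h j).coeff 0}) ?_ fun h hh => hh.1
      rw [h1]
      exact Finset.finite_toSet _
    have h2 := Set.ncard_le_ncard hsub hfinb
    rw [Set.ncard_coe_finset, Fintype.card_piFinset] at h2
    exact_mod_cast h2
  refine le_trans ?_ (mul_le_mul_of_nonneg_left hbig (by positivity))
  rw [hall]
  rw [← Finset.mul_prod_erase Finset.univ _ (Finset.mem_univ i),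
    ← Finset.mul_prod_erase Finset.univ (fun j => ((Function.update T i U j).card : ℝ))
      (Finset.mem_univ i)]
  have h3 : ∏ j ∈ Finset.univ.erase i, ((Function.update T i U j).card : ℝ) =
      ∏ j ∈ Finset.univ.erase i, ((T j).card : ℝ) := by
    refine Finset.prod_congr rfl fun j hj => ?_
    rw [Function.update_of_ne (Finset.ne_of_mem_erase hj)]
  rw [h3, Function.update_self, hUc, hTc, ← mul_assoc]
  exact mul_le_mul_of_nonneg_right hA (Finset.prod_nonneg fun j _ => Nat.cast_nonneg _)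

end Pool.Agent.Helper86.EXO3
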