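import Pool.Agent.Helper86.EXO.O1
import Pool.Agent.Helper84.EXO.Roots
import Pool.Agent.Helper78.EX.E6

/-!
# EXO, O2: the relation `ρ₁ ρ₂ ρ₃ = π ^ 2 * (q / π)`
-/

set_option autoImplicit false

open Polynomial

namespace Pool.Agent.Helper86.EXO3

open Pool.Agent.Helper84.AA (frob)
open Pool.Agent.Helper84.EXO (vv exists_rho cubic)
open Pool.Agent.Helper8.EX (quad)
open Pool.Agent.Helper78.EX (mem_roots_frob)

theorem monic_vv (q : ℕ) : (vv q).Monic :=
  Pool.Agent.Helper19.EX.monic_lin.mul (monic_cubv q)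

theorem eval_vv (q : ℕ) (u : ℤ[X]) (x : ℂ) :
    ((vv q * u).map (Int.castRingHom ℂ)).eval x =
      ((x - 1) * (X ^ 3 + C 2 * X ^ 2 - C (3 * (q : ℂ)) * X - C (5 * (q : ℂ) + 1) : ℂ[X]).eval x) *
        (u.map (Int.castRingHom ℂ)).eval x := by
  rw [Polynomial.map_mul, eval_mul, vv]
  congr 1
  simp

/-- O2. -/
theorem exotic_vv {q : ℕ} (hq : 2 ≤ q) {u : ℤ[X]} (hu : u.Monic) :
    ∃ n : ℂ → ℤ, (∏ z ∈ ((frob q (vv q * u)).map (Int.castRingHom ℂ)).roots.toFinset, z ^ n z) = 1 ∧
      ∃ z ∈ ((frob q (vv q * u)).map (Int.castRingHom ℂ)).roots.toFinset, n z ≠ n (q / z) := by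
  classical
  have hq0 : (q : ℂ) ≠ 0 := by
    have : q ≠ 0 := by omega
    exact_mod_cast this
  obtain ⟨w, hw, hw1⟩ := quad (q : ℂ) hq0 1
  have hwq : w ^ 2 - w + q = 0 := by
    field_simp at hw1
    linear_combination -hw1
  obtain ⟨a, b, c, e1, e2, e3⟩ := exists_rho (q : ℂ) w
  obtain ⟨n1, n2, n3, hcub⟩ := cubic hq0 hw hw1.symm (mul_div_cancel₀ (q : ℂ) hw) e1 e2 e3
  have hw'0 : (q : ℂ) / w ≠ 0 := div_ne_zero hq0 hw
  -- `π ^ 2 ≠ q`
  have key : w ^ 2 ≠ q := by
    intro h
    have h1 : w = 2 * q := by linear_combination h - hwq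
    rw [h1] at h
    have h2 : (4 : ℂ) * q = 1 := by
      have h3 : (q : ℂ) * (4 * q - 1) = 0 := by linear_combination h
      rcases mul_eq_zero.1 h3 with h4 | h4
      · exact absurd h4 hq0
      · linear_combination h4
    have h3 : 4 * q = 1 := by exact_mod_cast h2
    omega
  have d1 : w ≠ q / w := by
    intro h
    rw [eq_div_iff hw] at h
    exact key (by linear_combination h)
  have hQ : (w - a) * ((w - b) * (w - c)) = w * (w ^ 2 - q) := by
    linear_combination (-w ^ 2) * e1 + w * e2 - e3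
  have hQ0 : (w - a) * ((w - b) * (w - c)) ≠ 0 := by
    rw [hQ]
    exact mul_ne_zero hw (sub_ne_zero.2 key)
  have da : w ≠ a := sub_ne_zero.1 (left_ne_zero_of_mul hQ0)
  have db : w ≠ b := sub_ne_zero.1 (left_ne_zero_of_mul (right_ne_zero_of_mul hQ0))
  have dc : w ≠ c := sub_ne_zero.1 (right_ne_zero_of_mul (right_ne_zero_of_mul hQ0))
  -- the roots
  have hm : (vv q * u).Monic := (monic_vv q).mul hu
  have m1 : w ∈ ((frob q (vv q * u)).map (Int.castRingHom ℂ)).roots.toFinset := by
    refine mem_roots_frob hm hw ?_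
    rw [eval_vv, ← hw1, sub_self, zero_mul, zero_mul]
  have m2 : (q : ℂ) / w ∈ ((frob q (vv q * u)).map (Int.castRingHom ℂ)).roots.toFinset := by
    refine mem_roots_frob hm hw'0 ?_
    have h2 : (q : ℂ) / w + q / (q / w) = 1 := by
      rw [hw1]
      field_simp
      ring
    rw [eval_vv, h2, sub_self, zero_mul, zero_mul]
  have mr : ∀ r : ℂ, r ≠ 0 →
      ((X - C (a + q / a)) * (X - C (b + q / b)) * (X - C (c + q / c)) : ℂ[X]).eval (r + q / r) = 0 →
      r ∈ ((frob q (vv q * u)).map (Int.castRingHom ℂ)).roots.toFinset := by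
    intro r hr h
    refine mem_roots_frob hm hr ?_
    rw [eval_vv, ← hcub, h, mul_zero, zero_mul]
  have ma := mr a n1 (by simp)
  have mb := mr b n2 (by simp)
  have mc := mr c n3 (by simp)
  set S := ((frob q (vv q * u)).map (Int.castRingHom ℂ)).roots.toFinset with hS
  let e : ℂ → ℂ → ℤ := fun x z => if z = x then 1 else 0
  let n : ℂ → ℤ := fun z => e a z + e b z + e c z + (-(e w z) + (-(e w z) + -(e ((q : ℂ) / w) z)))
  refine ⟨n, ?_, w, m1, ?_⟩
  · set T : Finset ℂ := {a, b, c, w, (q : ℂ) / w} with hT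
    have hsub : T ⊆ S := by
      intro z hz
      simp only [hT, Finset.mem_insert, Finset.mem_singleton] at hz
      rcases hz with rfl | rfl | rfl | rfl | rfl
      · exact ma
      · exact mb
      · exact mc
      · exact m1
      · exact m2
    have hT0 : ∀ z ∈ T, z ≠ 0 := by
      intro z hz
      simp only [hT, Finset.mem_insert, Finset.mem_singleton] at hz
      rcases hz with rfl | rfl | rfl | rfl | rfl
      · exact n1
      · exact n2
      · exact n3
      · exact hw
      · exact hw'0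
    rw [← Finset.prod_subset hsub (fun z _ hz => by
      simp only [hT, Finset.mem_insert, Finset.mem_singleton, not_or] at hz
      obtain ⟨z1, z2, z3, z4, z5⟩ := hz
      have h1 : n z = 0 := by
        show (if z = a then (1 : ℤ) else 0) + (if z = b then (1 : ℤ) else 0) +
          (if z = c then (1 : ℤ) else 0) + (-(if z = w then (1 : ℤ) else 0) +
          (-(if z = w then (1 : ℤ) else 0) + -(if z = (q : ℂ) / w then (1 : ℤ) else 0))) = 0
        rw [if_neg z1, if_neg z2, if_neg z3, if_neg z4, if_neg z5]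
        norm_num
      rw [h1, zpow_zero])]
    have hprod : ∀ x ∈ T, ∏ z ∈ T, z ^ e x z = x := by
      intro x hx
      rw [Finset.prod_eq_single_of_mem x hx]
      · show x ^ (if x = x then (1 : ℤ) else 0) = x
        rw [if_pos rfl, zpow_one]
      · intro z _ hzx
        show z ^ (if z = x then (1 : ℤ) else 0) = 1
        rw [if_neg hzx, zpow_zero]
    have hTa : a ∈ T := by simp [hT]
    have hTb : b ∈ T := by simp [hT]
    have hTc : c ∈ T := by simp [hT]
    have hTw : w ∈ T := by simp [hT]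
    have hTw' : (q : ℂ) / w ∈ T := by simp [hT]
    have hsplit : ∀ z ∈ T, z ^ n z = z ^ e a z * z ^ e b z * z ^ e c z *
        ((z ^ e w z)⁻¹ * ((z ^ e w z)⁻¹ * (z ^ e ((q : ℂ) / w) z)⁻¹)) := by
      intro z hz
      have h0 := hT0 z hz
      show z ^ (e a z + e b z + e c z + (-(e w z) + (-(e w z) + -(e ((q : ℂ) / w) z)))) = _
      rw [zpow_add₀ h0, zpow_add₀ h0, zpow_add₀ h0, zpow_add₀ h0, zpow_add₀ h0, zpow_neg, zpow_neg]
    rw [Finset.prod_congr rfl hsplit]
    simp only [Finset.prod_mul_distrib, Finset.prod_inv_distrib]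
    rw [hprod a hTa, hprod b hTb, hprod c hTc, hprod w hTw, hprod _ hTw', e3]
    field_simp
  · have h1 : n w = -2 := by
      show (if w = a then (1 : ℤ) else 0) + (if w = b then (1 : ℤ) else 0) +
        (if w = c then (1 : ℤ) else 0) + (-(if w = w then (1 : ℤ) else 0) +
        (-(if w = w then (1 : ℤ) else 0) + -(if w = (q : ℂ) / w then (1 : ℤ) else 0))) = -2
      rw [if_neg da, if_neg db, if_neg dc, if_pos rfl, if_neg d1]
      norm_num
    have h2 : -1 ≤ n ((q : ℂ) / w) := by
      show -1 ≤ (if (q : ℂ) / w = a then (1 : ℤ) else 0) + (if (q : ℂ) / w = b then (1 : ℤ) else 0) +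
        (if (q : ℂ) / w = c then (1 : ℤ) else 0) + (-(if (q : ℂ) / w = w then (1 : ℤ) else 0) +
        (-(if (q : ℂ) / w = w then (1 : ℤ) else 0) +
          -(if (q : ℂ) / w = (q : ℂ) / w then (1 : ℤ) else 0)))
      rw [if_neg (Ne.symm d1), if_pos rfl]
      have p1 : ∀ P : Prop, ∀ _ : Decidable P, (0 : ℤ) ≤ if P then (1 : ℤ) else 0 := by
        intro P _
        split_ifs <;> norm_num
      have pa := p1 ((q : ℂ) / w = a) inferInstance
      have pb := p1 ((q : ℂ) / w = b) inferInstance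
      have pc := p1 ((q : ℂ) / w = c) inferInstance
      linarith
    intro h
    rw [h1] at h
    omega

end Pool.Agent.Helper86.EXO3
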