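import Pool.Agent.Helper86.EXO.O1
import Pool.Agent.Helper86.EXO.O3

/-!
# EXO, O3 closed
-/

set_option autoImplicit false

open Polynomial

namespace Pool.Agent.Helper86.EXO3

open Pool.Agent.Helper84.AA
open Pool.Agent.Helper84.EXO (vv)

/-- O3: the share of `vv u` among the ordinary tuples. -/
theorem share_ord : ∃ G : ℕ, ∀ q : ℕ, 16 ≤ q → ∀ p : ℕ, p.Prime → p ∣ q →
    ∀ (k : ℕ) (g : Fin k → ℕ) (i : Fin k), G ≤ g i →
      (({h : Fin k → ℤ[X] | ∀ j, h j ∈ traceSet q (g j) ∧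
        ¬ (p : ℤ) ∣ (h j).coeff 0}.ncard : ℕ) : ℝ) ≤ (q : ℝ) ^ (8 * g i) *
      (({h : Fin k → ℤ[X] | (∀ j, h j ∈ traceSet q (g j) ∧ ¬ (p : ℤ) ∣ (h j).coeff 0) ∧
        ∃ u, IsTrace q (g i - 4) u ∧ h i = vv q * u}.ncard : ℕ) : ℝ) :=
  share_ord_of fun _ hq => isTrace_vv hq

end Pool.Agent.Helper86.EXO3
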