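import Pool.Agent.Helper84.EXO.Defs

/-!
# EXO, O1: `vv` is a trace polynomial
-/

set_option autoImplicit false

open Polynomial

namespace Pool.Agent.Helper86.EXO3

open Pool.Agent.Helper84.AA
open Pool.Agent.Helper84.EXO (vv)

theorem natDegree_cubv (q : ℕ) :
    (X ^ 3 + C 2 * X ^ 2 - C (3 * (q : ℤ)) * X - C (5 * (q : ℤ) + 1) : ℤ[X]).natDegree = 3 := by
  compute_degree!

theorem monic_cubv (q : ℕ) :
    (X ^ 3 + C 2 * X ^ 2 - C (3 * (q : ℤ)) * X - C (5 * (q : ℤ) + 1) : ℤ[X]).Monic := by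
  rw [Monic, leadingCoeff, natDegree_cubv]
  simp [coeff_X_pow, coeff_one]

theorem isTrace_cubv {q : ℕ} (hq : 16 ≤ q) :
    IsTrace q 3 (X ^ 3 + C 2 * X ^ 2 - C (3 * (q : ℤ)) * X - C (5 * (q : ℤ) + 1)) := by
  refine ⟨monic_cubv q, natDegree_cubv q, ?_⟩
  have hq1 : (16 : ℝ) ≤ q := by exact_mod_cast hq
  set s := √(q : ℝ) with hs
  have hs0 : 0 ≤ s := Real.sqrt_nonneg _
  have hss : s * s = q := Real.mul_self_sqrt (by linarith)
  have hs1 : 4 ≤ s := by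
    rw [hs]
    exact Real.le_sqrt_of_sq_le (by linarith)
  have hc : ∀ a b : ℝ, ContinuousOn (fun x : ℝ => x ^ 3 + 2 * x ^ 2 - 3 * q * x - (5 * q + 1))
      (Set.Icc a b) := fun a b => by fun_prop
  have v1 : (-(2 * s)) ^ 3 + 2 * (-(2 * s)) ^ 2 - 3 * q * (-(2 * s)) - (5 * q + 1) ≤ 0 := by
    rw [← hss]
    nlinarith [mul_nonneg (sq_nonneg (s - 1)) (by linarith : 0 ≤ 2 * s + 1)]
  have v2 : 0 < (-s) ^ 3 + 2 * (-s) ^ 2 - 3 * q * (-s) - (5 * q + 1) := by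
    rw [← hss]
    nlinarith [mul_nonneg (mul_nonneg hs0 hs0) (by linarith : 0 ≤ s - 4)]
  have v3 : (0 : ℝ) ^ 3 + 2 * 0 ^ 2 - 3 * q * 0 - (5 * q + 1) < 0 := by linarith
  have v4 : 0 ≤ (2 * s) ^ 3 + 2 * (2 * s) ^ 2 - 3 * q * (2 * s) - (5 * q + 1) := by
    rw [← hss]
    nlinarith [mul_nonneg (mul_nonneg hs0 hs0) (by linarith : 0 ≤ s - 4)]
  obtain ⟨x1, hx1, r1⟩ : ∃ x ∈ Set.Icc (-(2 * s)) (-s),
      x ^ 3 + 2 * x ^ 2 - 3 * q * x - (5 * q + 1) = 0 := by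
    obtain ⟨x, hx, hx2⟩ := intermediate_value_Icc (by linarith) (hc _ _) (a := -(2 * s)) (b := -s)
      (show (0 : ℝ) ∈ Set.Icc _ _ from ⟨v1, v2.le⟩)
    exact ⟨x, hx, hx2⟩
  obtain ⟨x2, hx2, r2⟩ : ∃ x ∈ Set.Icc (-s) 0,
      x ^ 3 + 2 * x ^ 2 - 3 * q * x - (5 * q + 1) = 0 := by
    obtain ⟨x, hx, hx2⟩ := intermediate_value_Icc' (by linarith) (hc _ _) (a := -s) (b := 0)
      (show (0 : ℝ) ∈ Set.Icc _ _ from ⟨v3.le, v2.le⟩)
    exact ⟨x, hx, hx2⟩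
  obtain ⟨x3, hx3, r3⟩ : ∃ x ∈ Set.Icc 0 (2 * s),
      x ^ 3 + 2 * x ^ 2 - 3 * q * x - (5 * q + 1) = 0 := by
    obtain ⟨x, hx, hx2⟩ := intermediate_value_Icc (by linarith) (hc _ _) (a := 0) (b := 2 * s)
      (show (0 : ℝ) ∈ Set.Icc _ _ from ⟨v3.le, v4⟩)
    exact ⟨x, hx, hx2⟩
  have n1 : x1 ≠ -s := by
    rintro rfl
    linarith
  have n3 : x3 ≠ 0 := by
    rintro rfl
    linarith
  have l12 : x1 < x2 := lt_of_lt_of_le (lt_of_le_of_ne hx1.2 n1) hx2.1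
  have l23 : x2 < x3 := lt_of_le_of_lt hx2.2 (lt_of_le_of_ne hx3.1 (Ne.symm n3))
  have a12 : x1 ^ 2 + x1 * x2 + x2 ^ 2 + 2 * (x1 + x2) - 3 * q = 0 := by
    have h : (x1 - x2) * (x1 ^ 2 + x1 * x2 + x2 ^ 2 + 2 * (x1 + x2) - 3 * q) = 0 := by
      linear_combination r1 - r2
    rcases mul_eq_zero.1 h with h | h
    · linarith
    · exact h
  have a23 : x2 ^ 2 + x2 * x3 + x3 ^ 2 + 2 * (x2 + x3) - 3 * q = 0 := by
    have h : (x2 - x3) * (x2 ^ 2 + x2 * x3 + x3 ^ 2 + 2 * (x2 + x3) - 3 * q) = 0 := by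
      linear_combination r2 - r3
    rcases mul_eq_zero.1 h with h | h
    · linarith
    · exact h
  have b : x1 + x2 + x3 + 2 = 0 := by
    have h : (x1 - x3) * (x1 + x2 + x3 + 2) = 0 := by
      linear_combination a12 - a23
    rcases mul_eq_zero.1 h with h | h
    · linarith
    · exact h
  intro z hz
  have hz1 : z ^ 3 + 2 * z ^ 2 - 3 * q * z - (5 * q + 1) = 0 := by
    have h1 : aeval z (X ^ 3 + C 2 * X ^ 2 - C (3 * (q : ℤ)) * X - C (5 * (q : ℤ) + 1) : ℤ[X]) =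
        z ^ 3 + 2 * z ^ 2 - 3 * q * z - (5 * q + 1) := by
      rw [map_sub, map_sub, map_add, map_pow, map_mul, map_mul, map_pow, aeval_X, aeval_C,
        aeval_C, aeval_C, eq_intCast, eq_intCast, eq_intCast]
      push_cast
      ring
    rw [← h1, hz]
  have hb : (x3 : ℂ) = -2 - x1 - x2 := by
    have : x3 = -2 - x1 - x2 := by linarith
    rw [this]
    push_cast
    ring
  have ha : (x1 : ℂ) ^ 2 + x1 * x2 + x2 ^ 2 + 2 * (x1 + x2) - 3 * q = 0 := by exact_mod_cast a12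
  have hr : (x1 : ℂ) ^ 3 + 2 * x1 ^ 2 - 3 * q * x1 - (5 * q + 1) = 0 := by exact_mod_cast r1
  have hfac : (z - x1) * ((z - x2) * (z - x3)) = 0 := by
    rw [hb]
    linear_combination hz1 - hr - (z - x1) * ha
  have key : ∀ x : ℝ, -(2 * s) ≤ x → x ≤ 2 * s → z - x = 0 → ∃ x : ℝ, (x : ℂ) = z ∧
      x ^ 2 ≤ 4 * q := by
    intro x h1 h2 h3
    refine ⟨x, (sub_eq_zero.1 h3).symm, ?_⟩
    rw [← hss]
    nlinarith
  rcases mul_eq_zero.1 hfac with h | h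
  · exact key x1 hx1.1 (by linarith [hx1.2]) h
  rcases mul_eq_zero.1 h with h | h
  · exact key x2 (by linarith [hx2.1]) (by linarith [hx2.2]) h
  · exact key x3 (by linarith [hx3.1]) hx3.2 h

/-- O1. -/
theorem isTrace_vv {q : ℕ} (hq : 16 ≤ q) : IsTrace q 4 (vv q) :=
  Pool.Agent.Helper19.EX.isTrace_mul (Pool.Agent.Helper19.EX.isTrace_lin (by omega))
    (isTrace_cubv hq)

end Pool.Agent.Helper86.EXO3
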